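import Pool.Agent.X289.EI.FS

/-!
# Finitely many Frobenius elements decide whether a representation is in the tensor category of another

Let `K` be a number field, `θ` the representation on the étale cohomology of a variety `X` over `K` and `ρ` the Galois
representation of a Bianchi newform (or any other automorphic form). For an elliptic curve `X` the method of Faltings
and Serre shows `ρ ≅ θ` by a finite computation. We show that the following is a finite computation in general: all
eigenvalues of `ρ (g)` are eigenvalues of `θ (g)`, for all `g` in `G_K`, whatever the multiplicities. Then `ρ`, if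
irreducible, is a subquotient of `W^{⊗ a} ⊗ (W^*)^{⊗ b}` for some `a`, `b`, where `W` is the space of `θ`, and the same
is true for the members of the compatible systems of `ρ` and `θ` at all other primes. So `ρ_{f,p}` arises from the étale
cohomology of a power of `X` for all `p`.

The finite set of primes depends only on `K`, the ramified primes, the dimensions, `ℓ` and the degree of the field of
coefficients.

The proof. The condition at `g` says that `tr (χ_{θ (g)} (ρ (g)) ^ j) = 0` for `j = 1, ..., n`. These are class functions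
and polynomials of bounded degree in the entries; they are matrix coefficients of the representation by
translations on a space of functions of bounded dimension. So Faltings' argument applies: they are zero if they are zero on
a set of representatives of a quotient of `G_K` of bounded order, unramified outside a given set. By the theorem of
Hermite and Minkowski there are only finitely many such quotients, and by Chebotarev's theorem finitely many
Frobenius elements (of places of degree one) represent all their classes.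
-/

set_option autoImplicit false

namespace Pool.Agent.Results.MP_2e0e07_nt.FinitelyManyPrimes

open Polynomial
open Pool.Agent.Y800 (GQ ZBar InInertia IsGeomFrob)
open Pool.Agent.X320.DS.St (Rep Poly mat Stable Semisimple Irreducible value IsSubquotient)

section

variable {G F : Type} [Group G] [Field F] {n m : ℕ}

/-- all eigenvalues of `ρ (g)` are eigenvalues of `θ (g)`, without regard to multiplicities (`F` will be
algebraically closed) -/
def EigenvaluesAmong (ρ : Rep G F n) (θ : Rep G F m) (g : G) : Prop :=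
  ∀ x, (mat ρ g).charpoly.IsRoot x → (mat θ g).charpoly.IsRoot x

/-- the entries of `ρ (g)` are polynomials in the entries of `θ (g)` and `θ (g)⁻¹` -/
def PolynomialIn (ρ : Rep G F n) (θ : Rep G F m) : Prop :=
  ∃ Q : Matrix (Fin n) (Fin n) (Poly F m), ∀ g, mat ρ g = Q.map fun P => value θ P g

/-- `ρ` is a subquotient of `W^{⊗ a} ⊗ (W^*)^{⊗ b}` for some `a`, `b`, where `W` is the space of `θ` -/
def InTensors (ρ : Rep G F n) (θ : Rep G F m) : Prop := ∃ a b, IsSubquotient ρ θ ⊤ a b

/-- What we conclude: the eigenvalues of `ρ (g)` are among those of `θ (g)` for all `g`; if `ρ` is semisimple, its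
entries are polynomials in the entries of `θ^{±1}`; if `ρ` is irreducible, it is a subquotient of
`W^{⊗ a} ⊗ (W^*)^{⊗ b}` for some `a`, `b`. -/
def Dominated (ρ : Rep G F n) (θ : Rep G F m) : Prop :=
  (∀ g, EigenvaluesAmong ρ θ g) ∧ (Semisimple ρ → PolynomialIn ρ θ) ∧ (Irreducible ρ → InTensors ρ θ)

end

/-- `τ` is in the inertia group of a place of `ℚbar` above `p` -/
def InertiaAt (p : ℕ) (τ : GQ) : Prop := ∃ Q : Ideal ZBar, Q.IsMaximal ∧ (p : ZBar) ∈ Q ∧ InInertia Q τ

/-- `σ` is a geometric Frobenius element at a place of `ℚbar` above `p` -/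
def FrobeniusAt (p : ℕ) (σ : GQ) : Prop := ∃ Q : Ideal ZBar, Q.IsMaximal ∧ (p : ZBar) ∈ Q ∧ IsGeomFrob p Q σ

section

variable {U : Subgroup GQ} {F : Type} [Field F] {n m : ℕ}

/-- `ρ` is unramified at all places above prime numbers which are not in `S` -/
def UnramifiedOutside (S : Finset ℕ) (ρ : Rep U F n) : Prop :=
  ∀ p : ℕ, p.Prime → p ∉ S → ∀ τ : U, InertiaAt p τ → ρ τ = 1

/-- For all but finitely many prime numbers `p` and all Frobenius elements `σ ∈ U` at `p`: the characteristic
polynomials of `ρ (σ)` and `ρ' (σ)` are the images of one polynomial over `L`, and so are those of `θ (σ)` and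
`θ' (σ)`. -/
def Compatible {F' L : Type} [Field F'] [Field L] (ι : L →+* F) (ι' : L →+* F') (ρ : Rep U F n)
    (ρ' : Rep U F' n) (θ : Rep U F m) (θ' : Rep U F' m) : Prop :=
  ∃ T : Finset ℕ, ∀ p : ℕ, p.Prime → p ∉ T → ∀ σ : U, FrobeniusAt p σ →
    (∃ R : L[X], (mat ρ σ).charpoly = R.map ι ∧ (mat ρ' σ).charpoly = R.map ι') ∧
    (∃ Q : L[X], (mat θ σ).charpoly = Q.map ι ∧ (mat θ' σ).charpoly = Q.map ι')

end

section

open Pool.Agent.X289.EI (entries_mem)
open Pool.Agent.X320.DS (algT gens tannaka)

theorem dominated_of {G F : Type} [Group G] [Field F] {n m : ℕ} [IsAlgClosed F] [CharZero F] {ρ : Rep G F n}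
    {θ : Rep G F m} (h : ∀ g, EigenvaluesAmong ρ θ g) : Dominated ρ θ := by
  refine ⟨h, fun hρ => ?_, fun hρ => ?_⟩
  · have h1 : ∀ s t, (fun g => mat ρ g s t) ∈ algT θ := fun s t =>
      entries_mem (ρ := ρ) (θ := θ) h hρ (Pool.Agent.X320.DS.ent_mem ρ s t)
    choose Q hQ using fun s t => Pool.Agent.X320.DS.St.exists_value θ (h1 s t)
    exact ⟨Matrix.of Q, fun g => by
      ext s t
      exact congrFun (hQ s t) g⟩
  · have h1 : ∀ s t, (fun g => mat ρ g s t) ∈ algT θ := fun s t =>
      entries_mem (ρ := ρ) (θ := θ) h hρ.semisimple (Pool.Agent.X320.DS.ent_mem ρ s t)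
    obtain ⟨a, b, S, π, hπ, hS⟩ := tannaka hρ.1 ρ hρ.2 θ (⊤ : Subgroup G) (fun s t g => mat ρ g s t) h1
      (fun _ _ _ _ => rfl)
    exact ⟨a, b, Pool.Agent.X320.DS.St.isSubquotient_iff _ _ _ _ _ ⟨S, π, hπ, hS⟩⟩

end

/-- **Finitely many primes suffice.** Let `U` be an open subgroup of `G_ℚ`, that is `U = G_K` for a number field
`K ⊆ ℚbar`, let `S` be a finite set of prime numbers which contains those ramified in `K`, and `ℓ` a prime number. For
all `n`, `m`, `e` there is a finite set `𝒯` of prime numbers which are not in `S` with the following property.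

Let `F` be an algebraically closed field which is a normed algebra over `ℚ_ℓ` (for instance `ℚbar_ℓ`), and let
`ρ : G_K → GL_n(F)`, `θ : G_K → GL_m(F)` be continuous representations, unramified outside `S`, such that the
coefficients of the characteristic polynomials of all `ρ (g)`, `θ (g)` are in an extension `E` of `ℚ_ℓ` of
degree at most `e`. Suppose that for all `p ∈ 𝒯` and all Frobenius elements `σ` of `ℚbar / ℚ` at `p` which are in
`G_K` (the Frobenius elements at the places of degree one of `K` above `p`) the eigenvalues of `ρ (σ)` are among those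
of `θ (σ)`. Then

1. this is so for all elements of `G_K`; if `ρ` is semisimple, its entries are polynomials in the entries of
`θ^{±1}`; if `ρ` is irreducible, it is a subquotient of `W^{⊗ a} ⊗ (W^*)^{⊗ b}` for some `a`, `b`, where `W` is the
space of `θ`;

2. the same is true for all continuous `ρ' : G_K → GL_n(F')`, `θ' : G_K → GL_m(F')`, where `F'` is an algebraically
closed Hausdorff topological field of characteristic zero, such that, for a field `L` embedded in `F` and `F'`, the
characteristic polynomials of Frobenius elements at almost all `p` under `ρ` and `ρ'`, and under `θ` and `θ'`, come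
from the same polynomials over `L`. -/
theorem result (U : Subgroup GQ) (hU : IsOpen (U : Set GQ)) (S : Finset ℕ) (hS : ∀ p ∈ S, p.Prime)
    (hUS : ∀ p : ℕ, p.Prime → p ∉ S → ∀ τ, InertiaAt p τ → τ ∈ U) (ℓ : ℕ) [Fact ℓ.Prime] (n m e : ℕ) :
    ∃ 𝒯 : Finset ℕ, (∀ p ∈ 𝒯, p.Prime ∧ p ∉ S) ∧
      ∀ (F : Type) [NormedField F] [IsAlgClosed F] [NormedAlgebra ℚ_[ℓ] F] (ρ : Rep U F n) (θ : Rep U F m)
        (E : IntermediateField ℚ_[ℓ] F) [FiniteDimensional ℚ_[ℓ] E], Module.finrank ℚ_[ℓ] E ≤ e →
        Continuous ρ → Continuous θ → UnramifiedOutside S ρ → UnramifiedOutside S θ →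
        (∀ g i, (mat ρ g).charpoly.coeff i ∈ E) → (∀ g i, (mat θ g).charpoly.coeff i ∈ E) →
        (∀ p ∈ 𝒯, ∀ σ : U, FrobeniusAt p σ → EigenvaluesAmong ρ θ σ) →
        Dominated ρ θ ∧
        ∀ (F' L : Type) [Field F'] [IsAlgClosed F'] [CharZero F'] [TopologicalSpace F'] [IsTopologicalRing F']
          [T2Space F'] [Field L] (ι : L →+* F) (ι' : L →+* F') (ρ' : Rep U F' n) (θ' : Rep U F' m),
          Continuous ρ' → Continuous θ' → Compatible ι ι' ρ ρ' θ θ' → Dominated ρ' θ' := by
  obtain ⟨𝒯, h𝒯, hD⟩ := Pool.Agent.X289.EI.FS.roots_of_finite n m U hU S hS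
    (fun p hp hpS Q hQ hpQ τ hτ => hUS p hp hpS τ ⟨Q, hQ, hpQ, hτ⟩) ℓ e
  refine ⟨𝒯, h𝒯, ?_⟩
  intro F _ _ _ ρ θ E _ he hρ hθ huρ huθ hEρ hEθ hF
  haveI : CharZero F := charZero_of_injective_algebraMap (algebraMap ℚ_[ℓ] F).injective
  have key : ∀ g, EigenvaluesAmong ρ θ g := by
    refine hD F ρ θ hρ hθ (fun p hp hpS => ⟨fun Q hQ hpQ τ hτ => huρ p hp hpS τ ⟨Q, hQ, hpQ, hτ⟩,
      fun Q hQ hpQ τ hτ => huθ p hp hpS τ ⟨Q, hQ, hpQ, hτ⟩⟩) E he (fun g => ?_) hEθ
      (fun p hp Q hQ hpQ σ hσ => hF p hp σ ⟨Q, hQ, hpQ, hσ⟩)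
    rcases Nat.eq_zero_or_pos n with rfl | hn
    · rw [Matrix.trace_fin_zero]
      exact E.zero_mem
    · have : Nonempty (Fin n) := ⟨⟨0, hn⟩⟩
      rw [Matrix.trace_eq_neg_charpoly_coeff]
      exact E.neg_mem (hEρ g _)
  refine ⟨dominated_of key, ?_⟩
  intro F' L _ _ _ _ _ _ _ ι ι' ρ' θ' hρ' hθ' ⟨T, hT⟩
  refine dominated_of fun g => ?_
  refine Pool.Agent.X289.EI.FS.univ_U U hU {g | Pool.Agent.X289.EI.Among ρ' θ' g}
    (Pool.Agent.X289.EI.FS.closed_among' hρ' hθ') T ?_ g
  intro p hp hpT Q hQ hpQ σ hσ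
  obtain ⟨⟨R, hR₀, hR⟩, Q, hQ₀, hQ⟩ := hT p hp hpT σ ⟨Q, hQ, hpQ, hσ⟩
  have h1 : R.map ι ∣ (Q.map ι) ^ n := by
    rw [← hR₀, ← hQ₀]
    exact Pool.Agent.X289.EI.dvd_pow_of_roots (Matrix.charpoly_monic _)
      (by rw [Matrix.charpoly_natDegree_eq_dim, Fintype.card_fin]) (key σ)
  rw [← Polynomial.map_pow, Polynomial.map_dvd_map'] at h1
  have h2 : R.map ι' ∣ (Q.map ι') ^ n := by
    rw [← Polynomial.map_pow]
    exact Polynomial.map_dvd ι' h1
  intro x hx
  have hx' : (mat ρ' σ).charpoly.IsRoot x := hx
  show (mat θ' σ).charpoly.IsRoot x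
  rw [hR] at hx'
  rw [hQ]
  have h3 : ((Q.map ι') ^ n).IsRoot x := hx'.dvd h2
  rw [IsRoot.def, eval_pow] at h3
  exact eq_zero_of_pow_eq_zero h3

end Pool.Agent.Results.MP_2e0e07_nt.FinitelyManyPrimes
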