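import Pool.Agent.X289.EI.Gal

/-!
# Geometric origin of the Galois representations of a Bianchi newform does not depend on the prime

Let `f` be a Bianchi newform over `K` with Hecke field `E` and Galois representations `ρ_{f,p}`, `ρ_{f,ℓ}` (for
embeddings of `E` in `ℚbar_p`, `ℚbar_ℓ`). We show: if `ρ_{f,p}` is a subquotient of `H^i (X, ℚbar_p)(j)`, for one
prime `p` and one smooth projective variety `X` over `K`, then for all `ℓ` the representation `ρ_{f,ℓ}` is a subquotient
of `W^{⊗ a} ⊗ (W^*)^{⊗ b}`, `W = H^i (X, ℚbar_ℓ)(j)`, for some `a`, `b`; by the Künneth formula and Poincaré duality it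
arises from the étale cohomology of a power of `X`. So the question has the same answer for all primes `p` and all
newforms conjugate to `f`.

This follows from a criterion for a representation to be in the tensor category generated by another: it is enough that
for a set of places of (upper) density one the eigenvalues of `ρ (Frob)` are among the eigenvalues of `θ (Frob)`,
without any condition on multiplicities. If the Zariski closure of the image of `(ρ, θ)` is connected, any positive
upper density suffices.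

The proof. Let `A ⊆ B` be the algebras of functions on `G_K` generated by the entries of `θ^{±1}`, and of `θ^{±1}` and
`ρ^{±1}`. By Chebotarev's theorem all eigenvalues of `ρ (g)` are eigenvalues of `θ (g)` for all `g`, so `tr ρ` and its
translates, hence the entries of `ρ` are integral over `A`, and `B` is a finite `A`-module. A point of `B` over the
point `1` of `A` gives a unipotent matrix all of whose powers have entries in a finite set, so it is `1`; the fibre has no
tangent vectors since a translation invariant derivation which is zero on `A` is zero on the integral extension `B`. So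
the fibre is one reduced point, `B = A` near `1` by Nakayama's lemma, and everywhere since the conductor of `B` in `A` is
stable under translations.
-/

set_option autoImplicit false

namespace Pool.Agent.Results.MP_2e0e07_nt.OnePrimeSuffices

open Filter NumberField IsDedekindDomain Polynomial
open Pool.Agent.W401.Cheb (GK IsFrob dens)
open Pool.Agent.X320.DS.St (Rep Poly mat Stable Semisimple Irreducible value IsSubquotient)

section

variable {G F : Type} [Group G] [Field F] {n m : ℕ}

/-- all eigenvalues of `ρ (g)` are eigenvalues of `θ (g)`, without regard to multiplicities (`F` will be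
algebraically closed) -/
def EigenvaluesAmong (ρ : Rep G F n) (θ : Rep G F m) (g : G) : Prop :=
  ∀ x, (mat ρ g).charpoly.IsRoot x → (mat θ g).charpoly.IsRoot x

/-- `ρ` is a subquotient of `θ`: there is a stable subspace `S` of the space of `θ` with an equivariant surjection to
the space of `ρ` -/
def SubquotientOf (ρ : Rep G F n) (θ : Rep G F m) : Prop :=
  ∃ (S : Submodule F (Fin m → F)) (π : S →ₗ[F] (Fin n → F)), Function.Surjective π ∧
    ∀ g (u : S), ∃ h : (mat θ g).mulVec u.1 ∈ S, π ⟨(mat θ g).mulVec u.1, h⟩ = (mat ρ g).mulVec (π u)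

/-- the entries of `ρ (g)` are polynomials in the entries of `θ (g)` and `θ (g)⁻¹` -/
def PolynomialIn (ρ : Rep G F n) (θ : Rep G F m) : Prop :=
  ∃ Q : Matrix (Fin n) (Fin n) (Poly F m), ∀ g, mat ρ g = Q.map fun P => value θ P g

/-- `ρ` is a subquotient of `W^{⊗ a} ⊗ (W^*)^{⊗ b}` for some `a`, `b`, where `W` is the space of `θ` -/
def InTensors (ρ : Rep G F n) (θ : Rep G F m) : Prop := ∃ a b, IsSubquotient ρ θ ⊤ a b

/-- the value at `g` of a polynomial in the entries of `ρ`, `ρ⁻¹`, `θ`, `θ⁻¹` -/
noncomputable def pairValue (ρ : Rep G F n) (θ : Rep G F m)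
    (P : MvPolynomial (((Fin n × Fin n) ⊕ (Fin n × Fin n)) ⊕ ((Fin m × Fin m) ⊕ (Fin m × Fin m))) F) (g : G) : F :=
  MvPolynomial.eval (Sum.elim
    (Sum.elim (fun s => mat ρ g s.1 s.2) (fun s => mat ρ g⁻¹ s.1 s.2))
    (Sum.elim (fun s => mat θ g s.1 s.2) (fun s => mat θ g⁻¹ s.1 s.2))) P

end

section

variable {K F : Type} [Field K] [NumberField K] [Field F] {n m : ℕ}

/-- The Zariski closure of the image of `(ρ, θ)` is connected: a polynomial in the entries of `ρ (g)^{±1}`,
`θ (g)^{±1}` which vanishes on an open subgroup vanishes everywhere. -/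
def Connected (ρ : Rep (GK K) F n) (θ : Rep (GK K) F m) : Prop :=
  ∀ P, ∀ H : Subgroup (GK K), IsOpen (H : Set (GK K)) → (∀ h ∈ H, pairValue ρ θ P h = 0) →
    ∀ g, pairValue ρ θ P g = 0

/-- for a set of places `v` of upper density at least `δ`, for all Frobenius elements `σ` at `v` the eigenvalues of
`ρ (σ⁻¹)` are among those of `θ (σ⁻¹)` -/
def EigenvaluesUpper (ρ : Rep (GK K) F n) (θ : Rep (GK K) F m) (δ : ℝ) : Prop :=
  ∃ᶠ N in atTop, δ ≤
    dens (fun v : HeightOneSpectrum (𝓞 K) => ∀ σ, IsFrob v σ → EigenvaluesAmong ρ θ σ⁻¹) N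

/-- For a set of places `v` of upper density one, for all Frobenius elements `σ` at `v`: the characteristic
polynomials of `ρ (σ⁻¹)` and `ρ' (σ⁻¹)` are the images of one polynomial over `E`, and so are those of `θ (σ⁻¹)` and
`θ' (σ⁻¹)`. -/
def Compatible {F' E : Type} [Field F'] [Field E] (e : E →+* F) (e' : E →+* F') (ρ : Rep (GK K) F n)
    (ρ' : Rep (GK K) F' n) (θ : Rep (GK K) F m) (θ' : Rep (GK K) F' m) : Prop :=
  ∀ δ : ℝ, δ < 1 → ∃ᶠ N in atTop, δ ≤
    dens (fun v : HeightOneSpectrum (𝓞 K) => ∀ σ, IsFrob v σ →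
      (∃ R : E[X], (mat ρ σ⁻¹).charpoly = R.map e ∧ (mat ρ' σ⁻¹).charpoly = R.map e') ∧
      (∃ Q : E[X], (mat θ σ⁻¹).charpoly = Q.map e ∧ (mat θ' σ⁻¹).charpoly = Q.map e')) N

end

section

open Pool.Agent.X289.EI (entries_mem)
open Pool.Agent.X320.DS (algT gens tannaka)

variable {G F : Type} [Group G] [Field F] {n m : ℕ}

theorem mem_pair (ρ : Rep G F n) (θ : Rep G F m) {f : G → F} (hf : f ∈ algT θ ⊔ algT ρ) :
    ∃ P, f = pairValue ρ θ P := by
  have hf' : f ∈ Algebra.adjoin F (Set.range (Sum.elim (gens ρ) (gens θ))) := by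
    rw [Set.Sum.elim_range, Algebra.adjoin_union, sup_comm]
    exact hf
  rw [Algebra.adjoin_range_eq_range_aeval] at hf'
  obtain ⟨P, rfl⟩ := hf'
  refine ⟨P, ?_⟩
  funext g
  have h2 : (Pi.evalAlgHom F (fun _ : G => F) g) (MvPolynomial.aeval (Sum.elim (gens ρ) (gens θ)) P) =
      MvPolynomial.aeval (fun s => Sum.elim (gens ρ) (gens θ) s g) P := by
    rw [← AlgHom.comp_apply, MvPolynomial.comp_aeval]
    rfl
  refine h2.trans ?_
  rw [MvPolynomial.aeval_eq_eval]
  unfold pairValue
  congr 1
  congr 1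
  funext s
  rcases s with (s | s) | (s | s) <;> rfl

theorem polynomialIn_of [IsAlgClosed F] [CharZero F] {ρ : Rep G F n} {θ : Rep G F m}
    (h : ∀ g, EigenvaluesAmong ρ θ g) (hρ : Semisimple ρ) : PolynomialIn ρ θ := by
  have h1 : ∀ s t, (fun g => mat ρ g s t) ∈ algT θ := fun s t =>
    entries_mem (ρ := ρ) (θ := θ) h hρ (Pool.Agent.X320.DS.ent_mem ρ s t)
  choose Q hQ using fun s t => Pool.Agent.X320.DS.St.exists_value θ (h1 s t)
  exact ⟨Matrix.of Q, fun g => by
    ext s t
    exact congrFun (hQ s t) g⟩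

theorem inTensors_of [IsAlgClosed F] [CharZero F] {ρ : Rep G F n} {θ : Rep G F m}
    (h : ∀ g, EigenvaluesAmong ρ θ g) (hρ : Irreducible ρ) : InTensors ρ θ := by
  have h1 : ∀ s t, (fun g => mat ρ g s t) ∈ algT θ := fun s t =>
    entries_mem (ρ := ρ) (θ := θ) h hρ.semisimple (Pool.Agent.X320.DS.ent_mem ρ s t)
  obtain ⟨a, b, S, π, hπ, hS⟩ := tannaka hρ.1 ρ hρ.2 θ (⊤ : Subgroup G) (fun s t g => mat ρ g s t) h1
    (fun _ _ _ _ => rfl)
  exact ⟨a, b, Pool.Agent.X320.DS.St.isSubquotient_iff _ _ _ _ _ ⟨S, π, hπ, hS⟩⟩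

end

/-- **One prime suffices.** Let `K` be a number field.

1. Let `F` be an algebraically closed Hausdorff topological field of characteristic zero (for instance `ℚbar_ℓ`),
`ρ : G_K → GL_n(F)` and `θ : G_K → GL_m(F)` continuous. Suppose that for a set of places of upper density one the
eigenvalues of `ρ (Frob)` are among the eigenvalues of `θ (Frob)`; or that this holds for a set of places of positive upper
density and the Zariski closure of the image of `(ρ, θ)` is connected. If `ρ` is semisimple, its entries are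
polynomials in the entries of `θ` and `θ⁻¹`; if `ρ` is irreducible, it is a subquotient of `W^{⊗ a} ⊗ (W^*)^{⊗ b}`
for some `a`, `b`, where `W` is the space of `θ`.

2. Let moreover `ρ₀ : G_K → GL_n(F₀)`, `θ₀ : G_K → GL_m(F₀)` be representations over an algebraically closed field
`F₀` (for instance `ℚbar_p`) and let `E` be a field with embeddings in `F₀` and `F`, such that for a set of places of
upper density one the characteristic polynomials of Frobenius elements under `ρ₀` and `ρ`, and under `θ₀` and `θ`,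
come from the same polynomials over `E`. If `ρ₀` is a subquotient of `θ₀` and `ρ` is irreducible, then `ρ` is a
subquotient of `W^{⊗ a} ⊗ (W^*)^{⊗ b}` for some `a`, `b`, where `W` is the space of `θ`. -/
theorem result (K : Type) [Field K] [NumberField K] (F : Type) [Field F] [IsAlgClosed F] [CharZero F]
    [TopologicalSpace F] [IsTopologicalRing F] [T2Space F] (n m : ℕ) (ρ : Rep (GK K) F n) (hρ : Continuous ρ)
    (θ : Rep (GK K) F m) (hθ : Continuous θ) :
    (((∀ δ : ℝ, δ < 1 → EigenvaluesUpper ρ θ δ) ∨ (Connected ρ θ ∧ ∃ δ : ℝ, 0 < δ ∧ EigenvaluesUpper ρ θ δ)) →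
      (Semisimple ρ → PolynomialIn ρ θ) ∧ (Irreducible ρ → InTensors ρ θ)) ∧
    (∀ (F₀ E : Type) [Field F₀] [IsAlgClosed F₀] [Field E] (e₀ : E →+* F₀) (e : E →+* F) (ρ₀ : Rep (GK K) F₀ n)
      (θ₀ : Rep (GK K) F₀ m), Compatible e₀ e ρ₀ ρ θ₀ θ → SubquotientOf ρ₀ θ₀ → Irreducible ρ →
      InTensors ρ θ) := by
  refine ⟨fun h => ?_, ?_⟩
  · have key : ∀ g, EigenvaluesAmong ρ θ g := by
      rcases h with h | ⟨hc, δ, hδ, h⟩
      · exact Pool.Agent.X289.EI.rootsIn_of_density hρ hθ h
      · refine Pool.Agent.X289.EI.rootsIn_of_connected hρ hθ (fun f hf H hH h0 => ?_) hδ h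
        obtain ⟨P, rfl⟩ := mem_pair ρ θ hf
        funext g
        exact hc P H hH h0 g
    exact ⟨polynomialIn_of key, inTensors_of key⟩
  · intro F₀ E _ _ _ e₀ e ρ₀ θ₀ hC hS hρi
    refine inTensors_of (Pool.Agent.X289.EI.rootsIn_of_density hρ hθ fun δ hδ => ?_) hρi
    refine (hC δ hδ).mono fun N hN => hN.trans (Pool.Agent.W528.Ord.dens_mono (fun v hv σ hσ => ?_) N)
    obtain ⟨⟨R, hR₀, hR⟩, Q, hQ₀, hQ⟩ := hv σ hσ
    have h1 : R.map e₀ ∣ (Q.map e₀) ^ n := by
      rw [← hR₀, ← hQ₀]
      exact Pool.Agent.X289.EI.dvd_pow_of_roots (Matrix.charpoly_monic _)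
        (by rw [Matrix.charpoly_natDegree_eq_dim, Fintype.card_fin])
        (Pool.Agent.X289.EI.among_of_subquotient (ρ := ρ₀) (θ := θ₀) hS σ⁻¹)
    rw [← Polynomial.map_pow, Polynomial.map_dvd_map'] at h1
    have h2 : R.map e ∣ (Q.map e) ^ n := by
      rw [← Polynomial.map_pow]
      exact Polynomial.map_dvd e h1
    intro x hx
    have hx' : (mat ρ σ⁻¹).charpoly.IsRoot x := hx
    show (mat θ σ⁻¹).charpoly.IsRoot x
    rw [hR] at hx'
    rw [hQ]
    have h3 : ((Q.map e) ^ n).IsRoot x := hx'.dvd h2
    rw [IsRoot.def, eval_pow] at h3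
    exact eq_zero_of_pow_eq_zero h3

end Pool.Agent.Results.MP_2e0e07_nt.OnePrimeSuffices
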