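import Pool.Agent.X320.DS.St

/-!
# Bianchi newforms whose Hecke eigenvalues are given by geometric representations at a positive proportion of the places

Let `f` be a Bianchi newform over the imaginary quadratic field `K`, not of CM type, with Hecke eigenvalues `a_v (f)`
and Galois representations `ρ = ρ_{f,p} : G_K → GL_2(ℚbar_p)`. Let `θ : G_K → GL_m(ℚbar_p)` be a Tate twist of a subquotient
of the étale cohomology of a smooth projective variety, for instance a sum of representations attached to
classical newforms, elliptic curves or abelian varieties over `K` and Artin representations (one homogeneous for the
weight). We show: if for a set of places `v` of positive upper density `a_v (f)` is the value of one of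
finitely many polynomials at the entries of the matrices `θ (Frob_v)^{±1}`, then `ρ_{f,p}` is a subquotient of

  `F[G_K/H] ⊗ W^{⊗ a} ⊗ (W^*)^{⊗ b}`,   `F = ℚbar_p`, `W` the space of `θ`, `H` open normal in `G_K`,

and so it arises from étale cohomology, as the question asks. Equivalently: for a newform `f` for which `ρ_{f,p}`
does not arise from étale cohomology, the Hecke eigenvalues agree with no polynomial function of a geometric
representation, except on a set of places of density zero.

The theorem holds for representations of any dimension of the Galois group of any number field, over any Hausdorff
topological field of characteristic zero. Besides continuity it is only assumed that the restriction to every open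
subgroup is absolutely irreducible; more generally, that `ρ` is irreducible and that the span of the matrices
`ρ (h)`, `h ∈ H`, does not depend on the open subgroup `H`. (The representations of Bianchi newforms not of CM type
satisfy this; those of CM type are induced from Hecke characters and their geometric origin is known.)

For the polynomial `tr` on `GL_2` (equality `a_v (f) = a_v (g)` with positive upper density) such a theorem is
due to Rajan. For a general `ρ` which is irreducible but may become reducible on open subgroups one needs density
`> 1 - 1/n²`: `AlgebraicDependence` in `MP_f68ac8_nt`.
-/

set_option autoImplicit false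

namespace Pool.Agent.Results.MP_2e0e07_nt.PositiveDensity

open Pool.Agent.W401.Cheb (GK)
open Pool.Agent.X320.DS.St

/-- **Positive density.** Let `K` be a number field, `F` a Hausdorff topological field of characteristic zero (for
instance `ℚbar_p`), `ρ : G_K → GL_n(F)` and `θ : G_K → GL_m(F)` continuous, `X` a finite set of polynomials in
`2 m ^ 2` variables and `δ > 0`. Suppose that for a set of places `v` of upper density at least `δ`, for each
Frobenius element `σ` at `v`, the trace of `ρ (σ⁻¹)` is the value of some `P` in `X` at the entries of
`θ (σ⁻¹)` and `θ (σ)`.

1. If the restriction of `ρ` to every open subgroup is absolutely irreducible, then `ρ` is a subquotient of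
`F[G_K/H] ⊗ W^{⊗ a} ⊗ (W^*)^{⊗ b}` for some open normal subgroup `H` and some `a`, `b`, where `W = F ^ m` with the
action `θ`.
2. The same holds if `ρ` is irreducible and the span of the matrices `ρ (h)`, `h ∈ H`, is the same for all open
subgroups `H` of `G_K`.
3. If `ρ` is semisimple and this span is the same for all open subgroups, then there are an open normal
subgroup `H` and a matrix `Q` of polynomials with `ρ (g) = Q (θ (g), θ (g)⁻¹)` for all `g` in `H`. -/
theorem result (K : Type) [Field K] [NumberField K] (F : Type) [Field F] [CharZero F] [TopologicalSpace F]
    [IsTopologicalRing F] [T2Space F] (n m : ℕ) (ρ : Rep (GK K) F n) (hρ : Continuous ρ) (θ : Rep (GK K) F m)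
    (hθ : Continuous θ) (X : Finset (Poly F m)) (δ : ℝ) (hδ : 0 < δ)
    (h : FrobeniusTracesUpper ρ (polynomialValues θ X) δ) :
    (StronglyIrreducible ρ → InTensorCategory ρ θ) ∧
    (Irreducible ρ → SpanStable ρ → InTensorCategory ρ θ) ∧
    (Semisimple ρ → SpanStable ρ → PotentiallyPolynomial ρ θ) :=
  ⟨fun hi => inTensorCategory_of hi.irreducible
      (dependence_upper hρ hi.irreducible.semisimple hi.spanStable hθ X hδ h),
    fun hi hs => inTensorCategory_of hi (dependence_upper hρ hi.semisimple hs hθ X hδ h),
    fun hss hs => potentiallyPolynomial_of (dependence_upper hρ hss hs hθ X hδ h)⟩

end Pool.Agent.Results.MP_2e0e07_nt.PositiveDensity
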