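import Pool.Agent.X264.GE.Main

set_option autoImplicit false

namespace Pool.Agent.Results.MP_2e0e07_nt.SymmetricPowersAndTensorProducts

open Pool.Agent.X264.GE

universe u

/-- Given the standard properties in `IsKnown`: for every Bianchi newform `f` over `K`, the
representation `ρ_(f,p)` arises from étale cohomology if and only if, for some number field `L ⊇ K`,
some odd `n` and some nonzero representation `σ` of `G_L` arising from étale cohomology over `L`, the
representation `Sym^n(ρ_(f,p))|G_L ⊗ σ` arises from étale cohomology over `L`. -/
theorem result (Ω : Type u) [Field Ω] (W : Bianchi Ω) (h : W.IsKnown) (K : W.Fld) (f : W.Form K) :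
    (W.geo K).arisesK (W.gal K f) ↔ W.Weak K f :=
  Bianchi.main h K f

end Pool.Agent.Results.MP_2e0e07_nt.SymmetricPowersAndTensorProducts
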